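import Pool.Agent.W544.PG.Defs8

set_option autoImplicit false

open Matrix Finset Module

namespace Pool.Agent.W240.TP

open Pool.Agent.W544.PG

lemma prod_split {K : Type} [CommRing K] {m : ℕ} (σ : Fin m → Fin m) (hσ : ∀ j, σ (σ j) = j)
    (h : Fin m → K) :
    ∏ j, h j = (∏ j with σ j = j, h j) * ∏ j with j < σ j, (h j * h (σ j)) := by
  rw [← Finset.prod_filter_mul_prod_filter_not univ (fun j => σ j = j) h]
  congr 1
  rw [Finset.prod_mul_distrib,
    ← Finset.prod_filter_mul_prod_filter_not (univ.filter fun j => ¬ σ j = j) (fun j => j < σ j) h]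
  congr 1
  · apply Finset.prod_congr _ fun _ _ => rfl
    ext j
    simp only [mem_filter, mem_univ, true_and]
    exact ⟨fun h => h.2, fun h => ⟨fun h' => by rw [h'] at h; exact lt_irrefl _ h, h⟩⟩
  · symm
    apply Finset.prod_nbij' σ σ
    · intro j hj
      simp only [mem_filter, mem_univ, true_and] at hj ⊢
      rw [hσ]
      refine ⟨fun h' => ?_, fun h' => ?_⟩
      · rw [← h'] at hj
        exact lt_irrefl _ hj
      · exact lt_asymm hj h'
    · intro j hj
      simp only [mem_filter, mem_univ, true_and] at hj ⊢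
      rw [hσ]
      exact lt_of_le_of_ne (not_lt.1 hj.2) hj.1
    · intro j _
      exact hσ j
    · intro j _
      exact hσ j
    · intro j _
      rfl

/-- splitting of the index set of the slots into the orbits of an involution -/
def eqv {S : Type} {m : ℕ} (σ : Fin m → Fin m) (hσ : ∀ j, σ (σ j) = j) :
    (Fin m → S) ≃ (({j // σ j = j} → S) × ({j // j < σ j} → S × S)) where
  toFun K := (fun j => K j.1, fun j => (K j.1, K (σ j.1)))
  invFun x j := if h : σ j = j then x.1 ⟨j, h⟩ else if h' : j < σ j then (x.2 ⟨j, h'⟩).1 else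
    (x.2 ⟨σ j, by
      rw [hσ]
      exact lt_of_le_of_ne (not_lt.1 h') h⟩).2
  left_inv K := by
    funext j
    by_cases h : σ j = j
    · simp [h]
    · by_cases h' : j < σ j
      · simp [h, h']
      · simp [h, h', hσ]
  right_inv x := by
    obtain ⟨x, y⟩ := x
    apply Prod.ext
    · funext j
      obtain ⟨j, hj⟩ := j
      simp [hj]
    · funext j
      obtain ⟨j, hj⟩ := j
      have h1 : ¬ σ j = j := fun h => by rw [h] at hj; exact lt_irrefl _ hj
      have h2 : ¬ σ (σ j) = σ j := by rw [hσ]; exact fun h => h1 h.symm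
      have h3 : ¬ σ j < σ (σ j) := by rw [hσ]; exact fun h => lt_asymm hj h
      apply Prod.ext
      · simp [h1, hj]
      · simp only [h2, h3, dif_neg, not_false_iff]
        congr 2
        exact Subtype.ext (hσ j)

lemma key {K : Type} [Field K] {S : Type} [Fintype S] [DecidableEq S] {m : ℕ}
    (σ : Fin m → Fin m) (hσ : ∀ j, σ (σ j) = j) (A f : Fin m → S → K)
    (g : Fin m → S → S → K) :
    ∑ k : Fin m → S, (∏ j, A j (k j)) * ((∏ j with σ j = j, f j (k j)) *
      ∏ j with j < σ j, g j (k j) (k (σ j))) =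
    (∏ j with σ j = j, ∑ k, A j k * f j k) *
      ∏ j with j < σ j, ∑ p : S × S, A j p.1 * A (σ j) p.2 * g j p.1 p.2 := by
  have h1 : ∀ k : Fin m → S, (∏ j, A j (k j)) * ((∏ j with σ j = j, f j (k j)) *
      ∏ j with j < σ j, g j (k j) (k (σ j)))
      = (∏ j : {j // σ j = j}, A j.1 ((eqv σ hσ k).1 j) * f j.1 ((eqv σ hσ k).1 j)) *
        ∏ j : {j // j < σ j}, A j.1 ((eqv σ hσ k).2 j).1 * A (σ j.1) ((eqv σ hσ k).2 j).2 *
          g j.1 ((eqv σ hσ k).2 j).1 ((eqv σ hσ k).2 j).2 := by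
    intro k
    rw [prod_split σ hσ fun j => A j (k j)]
    rw [Finset.prod_subtype (univ.filter fun j => σ j = j) (p := fun j => σ j = j) (by simp)
        (fun j => A j (k j)),
      Finset.prod_subtype (univ.filter fun j => j < σ j) (p := fun j => j < σ j) (by simp)
        (fun j => A j (k j) * A (σ j) (k (σ j))),
      Finset.prod_subtype (univ.filter fun j => σ j = j) (p := fun j => σ j = j) (by simp)
        (fun j => f j (k j)),
      Finset.prod_subtype (univ.filter fun j => j < σ j) (p := fun j => j < σ j) (by simp)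
        (fun j => g j (k j) (k (σ j)))]
    have e1 : (∏ j : {j // σ j = j}, A j.1 ((eqv σ hσ k).1 j) * f j.1 ((eqv σ hσ k).1 j))
        = (∏ j : {j // σ j = j}, A j.1 (k j.1)) * ∏ j : {j // σ j = j}, f j.1 (k j.1) :=
      Finset.prod_mul_distrib
    have e2 : (∏ j : {j // j < σ j}, A j.1 ((eqv σ hσ k).2 j).1 *
        A (σ j.1) ((eqv σ hσ k).2 j).2 * g j.1 ((eqv σ hσ k).2 j).1 ((eqv σ hσ k).2 j).2)
        = (∏ j : {j // j < σ j}, A j.1 (k j.1) * A (σ j.1) (k (σ j.1))) *
          ∏ j : {j // j < σ j}, g j.1 (k j.1) (k (σ j.1)) :=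
      Finset.prod_mul_distrib
    rw [e1, e2]
    ring
  rw [Finset.sum_congr rfl fun k _ => h1 k,
    (eqv σ hσ).sum_comp (fun x : ({j // σ j = j} → S) × ({j // j < σ j} → S × S) =>
      (∏ j : {j // σ j = j}, A j.1 (x.1 j) * f j.1 (x.1 j)) *
        ∏ j : {j // j < σ j}, A j.1 (x.2 j).1 * A (σ j.1) (x.2 j).2 *
          g j.1 (x.2 j).1 (x.2 j).2),
    Fintype.sum_prod_type]
  rw [Finset.prod_subtype (univ.filter fun j => σ j = j) (p := fun j => σ j = j) (by simp)
        (fun j => ∑ k, A j k * f j k),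
      Finset.prod_subtype (univ.filter fun j => j < σ j) (p := fun j => j < σ j) (by simp)
        (fun j => ∑ p : S × S, A j p.1 * A (σ j) p.2 * g j p.1 p.2),
      Finset.prod_univ_sum, Finset.prod_univ_sum, Finset.sum_mul_sum, Fintype.piFinset_univ,
      Fintype.piFinset_univ]

lemma fixF {K : Type} [Field K] {n s : ℕ} (R : Matrix (Fin n) (Fin n) K) (ν : Fin s → K)
    (x : Fin s ⊕ Fin n) :
    ∑ k, (fromBlocks 1 0 0 R : Matrix (Fin s ⊕ Fin n) (Fin s ⊕ Fin n) K) k x *
      Sum.elim ν (fun _ => 0) k = Sum.elim ν (fun _ => 0) x := by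
  rw [Fintype.sum_sum_type]
  rcases x with b | b
  · simp [Matrix.one_apply]
  · simp

lemma fixL {K : Type} [Field K] {n r s : ℕ} (R Q : Matrix (Fin n) (Fin n) K)
    (c : Fin n → Fin r) (d : Fin s → Fin r) (hR : BD c R) (hRQ : Rᵀ * Q * R = Q) (a : Fin r)
    (x y : Fin s ⊕ Fin n) :
    ∑ p : (Fin s ⊕ Fin n) × (Fin s ⊕ Fin n),
      (fromBlocks 1 0 0 R : Matrix (Fin s ⊕ Fin n) (Fin s ⊕ Fin n) K) p.1 x *
      (fromBlocks 1 0 0 R : Matrix (Fin s ⊕ Fin n) (Fin s ⊕ Fin n) K) p.2 y *
      (if Sum.elim d c p.1 = a then (fromBlocks 0 0 0 Q :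
        Matrix (Fin s ⊕ Fin n) (Fin s ⊕ Fin n) K) p.1 p.2 else 0) =
      if Sum.elim d c x = a then (fromBlocks 0 0 0 Q :
        Matrix (Fin s ⊕ Fin n) (Fin s ⊕ Fin n) K) x y else 0 := by
  have h0 : ∀ (u v : Fin s ⊕ Fin n), (∀ b, u ≠ Sum.inr b) ∨ (∀ b, v ≠ Sum.inr b) →
      (fromBlocks 0 0 0 Q : Matrix (Fin s ⊕ Fin n) (Fin s ⊕ Fin n) K) u v = 0 := by
    intro u v h
    rcases u with u | u
    · rcases v with v | v <;> rfl
    · rcases v with v | v
      · rfl
      · rcases h with h | h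
        · exact absurd rfl (h u)
        · exact absurd rfl (h v)
  have hzz : ∀ (u v : Fin s ⊕ Fin n), (∀ b, u ≠ Sum.inr b) ∨ (∀ b, v ≠ Sum.inr b) →
      (if Sum.elim d c u = a then (fromBlocks 0 0 0 Q :
        Matrix (Fin s ⊕ Fin n) (Fin s ⊕ Fin n) K) u v else 0) = 0 := by
    intro u v h
    rw [h0 u v h, ite_self]
  have hred : ∑ p : (Fin s ⊕ Fin n) × (Fin s ⊕ Fin n),
      (fromBlocks 1 0 0 R : Matrix (Fin s ⊕ Fin n) (Fin s ⊕ Fin n) K) p.1 x *
      (fromBlocks 1 0 0 R : Matrix (Fin s ⊕ Fin n) (Fin s ⊕ Fin n) K) p.2 y *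
      (if Sum.elim d c p.1 = a then (fromBlocks 0 0 0 Q :
        Matrix (Fin s ⊕ Fin n) (Fin s ⊕ Fin n) K) p.1 p.2 else 0) =
      ∑ k : Fin n, ∑ l : Fin n,
        (fromBlocks 1 0 0 R : Matrix (Fin s ⊕ Fin n) (Fin s ⊕ Fin n) K) (Sum.inr k) x *
        (fromBlocks 1 0 0 R : Matrix (Fin s ⊕ Fin n) (Fin s ⊕ Fin n) K) (Sum.inr l) y *
        (if c k = a then Q k l else 0) := by
    rw [Fintype.sum_prod_type, Fintype.sum_sum_type]
    rw [Finset.sum_eq_zero (s := (univ : Finset (Fin s))), zero_add]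
    · refine Finset.sum_congr rfl fun k _ => ?_
      rw [Fintype.sum_sum_type, Finset.sum_eq_zero (s := (univ : Finset (Fin s))), zero_add]
      · rfl
      · intro l _
        dsimp only
        rw [hzz (Sum.inr k) (Sum.inl l) (Or.inr fun b => by simp), mul_zero]
    · intro k _
      refine Finset.sum_eq_zero fun l _ => ?_
      dsimp only
      rw [hzz (Sum.inl k) l (Or.inl fun b => by simp), mul_zero]
  rw [hred]
  rcases x with x | x
  · rw [hzz (Sum.inl x) y (Or.inl fun b => by simp)]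
    refine Finset.sum_eq_zero fun k _ => Finset.sum_eq_zero fun l _ => ?_
    have : (fromBlocks 1 0 0 R : Matrix (Fin s ⊕ Fin n) (Fin s ⊕ Fin n) K) (Sum.inr k)
        (Sum.inl x) = 0 := rfl
    rw [this, zero_mul, zero_mul]
  rcases y with y | y
  · rw [hzz (Sum.inr x) (Sum.inl y) (Or.inr fun b => by simp)]
    refine Finset.sum_eq_zero fun k _ => Finset.sum_eq_zero fun l _ => ?_
    have : (fromBlocks 1 0 0 R : Matrix (Fin s ⊕ Fin n) (Fin s ⊕ Fin n) K) (Sum.inr l)
        (Sum.inl y) = 0 := rfl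
    rw [this, mul_zero, zero_mul]
  change ∑ k : Fin n, ∑ l : Fin n, R k x * R l y * (if c k = a then Q k l else 0)
    = if c x = a then Q x y else 0
  have h1 : ∀ k l : Fin n, R k x * R l y * (if c k = a then Q k l else 0)
      = if c x = a then R k x * Q k l * R l y else 0 := by
    intro k l
    by_cases h : c k = c x
    · rw [h]
      by_cases h2 : c x = a
      · rw [if_pos h2, if_pos h2]
        ring
      · rw [if_neg h2, if_neg h2, mul_zero]
    · rw [hR k x h, zero_mul, zero_mul, zero_mul, zero_mul, ite_self]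
  rw [Finset.sum_congr rfl fun k _ => Finset.sum_congr rfl fun l _ => h1 k l]
  by_cases h : c x = a
  · simp only [if_pos h]
    have h2 := congrFun (congrFun hRQ x) y
    rw [Matrix.mul_apply] at h2
    rw [← h2, Finset.sum_comm]
    refine Finset.sum_congr rfl fun l _ => ?_
    rw [Matrix.mul_apply, Finset.sum_mul]
    rfl
  · simp [if_neg h]

theorem tal : S_tal := by
  intro K _ Γ _ _ n r s m T c d a hQ hρ t ht
  refine ⟨⊤, isOpen_univ, fun g _ => ?_⟩
  unfold algK at ht
  induction ht using Submodule.span_induction with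
  | mem t ht =>
    obtain ⟨σ, ν, hσ, haσ, hν, hJ⟩ := ht
    funext J
    unfold pull
    simp only [hJ]
    have h1 := key σ hσ (fun j k => T.ρS s g k (J j)) (fun j => Sum.elim (ν j) (fun _ => 0))
      (fun j x y => if Sum.elim d c x = a j then (fromBlocks 0 0 0 T.Q :
        Matrix (Fin s ⊕ Fin n) (Fin s ⊕ Fin n) K) x y else 0)
    rw [h1]
    congr 1
    · refine Finset.prod_congr rfl fun j _ => ?_
      exact fixF (T.ρ g) (ν j) (J j)
    · refine Finset.prod_congr rfl fun j _ => ?_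
      exact fixL (T.ρ g) T.Q c d (hρ g) (T.inv g) (a j) (J j) (J (σ j))
  | zero =>
    funext J
    simp [pull]
  | add x y _ _ hx hy =>
    have h2 : pull (T.ρS s g) (x + y) = pull (T.ρS s g) x + pull (T.ρS s g) y := by
      funext J
      simp [pull, mul_add, Finset.sum_add_distrib]
    rw [h2, hx, hy]
  | smul k x _ hx =>
    have h2 : pull (T.ρS s g) (k • x) = k • pull (T.ρS s g) x := by
      funext J
      simp only [pull, Pi.smul_apply, smul_eq_mul, Finset.mul_sum]
      refine Finset.sum_congr rfl fun L _ => ?_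
      ring
    rw [h2, hx]

end Pool.Agent.W240.TP
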